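import Pool.Agent.H92.RK.Targets

set_option autoImplicit false

open MeasureTheory Set
open Pool.Agent.H92.RK

namespace Pool.Agent.H12.RK

/-- translation of the integral over a period -/
theorem int_shift {F : ℝ → ℝ} (hF : ∀ x, F (x + 1) = F x) (x0 : ℝ) :
    ∫ x in (0 : ℝ)..1, F (x + x0) = ∫ x in (0 : ℝ)..1, F x := by
  rw [intervalIntegral.integral_comp_add_right]
  have hp : Function.Periodic F 1 := hF
  have := hp.intervalIntegral_add_eq x0 0
  rw [zero_add] at this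
  rw [zero_add, add_comm 1 x0, this]

theorem pf_CI (hCIL : T_CIL) (hCIM : T_CIM) (hCIH : T_CIH) (hCIA : T_CIA) : T_CI := by
  intro f f' X hf hf0 hper hX
  have hcont : Continuous f := continuous_iff_continuousAt.2 fun x => (hf.1 x).continuousAt
  -- periodicity of the derivative
  have hper' : ∀ x, f' (x + 1) = f' x := by
    intro x
    have h1 : HasDerivAt (fun y => f (y + 1)) (f' (x + 1)) x := by
      have := (hf.1 (x + 1)).comp_add_const x 1
      exact this
    have h2 : (fun y => f (y + 1)) = f := funext hper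
    rw [h2] at h1
    exact h1.unique (hf.1 x)
  -- minimum
  obtain ⟨x0, hx0⟩ : ∃ x0, ∀ x, f x0 ≤ f x := by
    obtain ⟨x0, -, hx0⟩ := (isCompact_Icc (a := (0 : ℝ)) (b := 1)).exists_isMinOn
      ⟨0, by simp⟩ hcont.continuousOn
    refine ⟨x0, fun x => ?_⟩
    have hp : Function.Periodic f 1 := hper
    obtain ⟨y, hy, hxy⟩ := hp.exists_mem_Ico₀ (by norm_num) x
    rw [hxy]
    exact hx0 ⟨hy.1, hy.2.le⟩
  set m := f x0 with hm
  have hm0 : 0 ≤ m := hf0 x0
  set h : ℝ → ℝ := fun x => f (x + x0) - m with hh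
  have hC1 : C1 h (fun x => f' (x + x0)) := by
    refine ⟨fun x => ?_, hf.2.comp (continuous_id.add continuous_const)⟩
    have := ((hf.1 (x + x0)).comp_add_const x x0).sub_const m
    exact this
  have hh0 : ∀ x, 0 ≤ h x := fun x => sub_nonneg.2 (hx0 _)
  have hhc : Continuous h := (hcont.comp (continuous_id.add continuous_const)).sub continuous_const
  have e0 : h 0 = 0 := by simp [hh, hm]
  have e1 : h 1 = 0 := by
    have := hper x0
    simp only [hh]
    rw [add_comm, this, hm, sub_self]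
  have k1 := hCIL h _ hC1 hh0 e0 e1
  have k2 := hCIM h m hhc hh0 hm0
  have k3 := hCIH h hhc hh0
  set I := ∫ x in (0 : ℝ)..1, h x ^ (2 / 3 : ℝ) with hI
  set J := ∫ x in (0 : ℝ)..1, h x ^ 2 with hJ
  set a := ∫ x in (0 : ℝ)..1, h x with ha
  have hI0 : 0 ≤ I := intervalIntegral.integral_nonneg (by norm_num)
    (fun x _ => Real.rpow_nonneg (hh0 x) _)
  have hJ0 : 0 ≤ J := intervalIntegral.integral_nonneg (by norm_num) (fun x _ => sq_nonneg _)
  have ha0 : 0 ≤ a := intervalIntegral.integral_nonneg (by norm_num) (fun x _ => hh0 x)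
  have hE : ∫ x in (0 : ℝ)..1, f' (x + x0) ^ 2 = ∫ x in (0 : ℝ)..1, f' x ^ 2 :=
    int_shift (F := fun x => f' x ^ 2) (fun x => by simp only [hper']) x0
  rw [hE] at k1
  have hE0 : 0 ≤ ∫ x in (0 : ℝ)..1, f' x ^ 2 :=
    intervalIntegral.integral_nonneg (by norm_num) (fun x _ => sq_nonneg _)
  have hM : ∫ x in (0 : ℝ)..1, (h x + m) ^ (2 / 3 : ℝ) = ∫ x in (0 : ℝ)..1, f x ^ (2 / 3 : ℝ) := by
    have : ∀ x, (h x + m) = f (x + x0) := fun x => by simp [hh]
    simp only [this]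
    exact int_shift (F := fun x => f x ^ (2 / 3 : ℝ)) (fun x => by simp only [hper]) x0
  rw [hM] at k2
  have hn2 : (I ^ (3 / 2 : ℝ)) ^ 2 = I ^ 3 := by
    rw [← Real.rpow_natCast, ← Real.rpow_mul hI0, ← Real.rpow_natCast]
    norm_num
  have hq2 : (J ^ (1 / 2 : ℝ)) ^ 2 = J := by
    rw [← Real.rpow_natCast, ← Real.rpow_mul hJ0]
    norm_num
  have hq4 : (J ^ (1 / 2 : ℝ)) ^ 4 = J ^ 2 := by
    have : (J ^ (1 / 2 : ℝ)) ^ 4 = ((J ^ (1 / 2 : ℝ)) ^ 2) ^ 2 := by ring
    rw [this, hq2]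
  have k4 := hCIA X (∫ x in (0 : ℝ)..1, f' x ^ 2) (I ^ (3 / 2 : ℝ)) (J ^ (1 / 2 : ℝ)) a m hX hE0
    (Real.rpow_nonneg hI0 _) (Real.rpow_nonneg hJ0 _) ha0 hm0
    (by rw [hn2, hq4]; exact k1) k3
  rw [hq2] at k4
  have hfin : ∫ x in (0 : ℝ)..1, f x ^ 2 = J + 2 * m * a + m ^ 2 := by
    have h1 : ∫ x in (0 : ℝ)..1, f (x + x0) ^ 2 = ∫ x in (0 : ℝ)..1, f x ^ 2 :=
      int_shift (F := fun x => f x ^ 2) (fun x => by simp only [hper]) x0
    rw [← h1]
    have h2 : ∀ x, f (x + x0) ^ 2 = h x ^ 2 + 2 * m * h x + m ^ 2 := fun x => by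
      simp only [hh]; ring
    simp only [h2]
    have i1 : IntervalIntegrable (fun x => h x ^ 2) volume 0 1 := (hhc.pow 2).intervalIntegrable _ _
    have i2 : IntervalIntegrable (fun x => 2 * m * h x) volume 0 1 :=
      (continuous_const.mul hhc).intervalIntegrable _ _
    have i3 : IntervalIntegrable (fun _ : ℝ => m ^ 2) volume 0 1 :=
      continuous_const.intervalIntegrable _ _
    rw [intervalIntegral.integral_add (i1.add i2) i3, intervalIntegral.integral_add i1 i2,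
      intervalIntegral.integral_const_mul]
    simp [hJ, ha]
  rw [hfin]
  have hX0 : 0 ≤ X := by linarith
  have := mul_le_mul_of_nonneg_left k2 hX0
  linarith

end Pool.Agent.H12.RK
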