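import Pool.Agent.H92.RK.Targets

set_option autoImplicit false

open MeasureTheory Set
open Pool.Agent.H92.RK

namespace Pool.Agent.H12.RK

theorem hab : -Real.pi < Real.pi := by linarith [Real.pi_pos]

/-- the coefficient as an integral -/
theorem coeff_eq (g : ℝ → ℂ) (n : ℤ) : fourierCoeffOn hab g n =
    (1 / (2 * Real.pi) : ℝ) • ∫ θ in (-Real.pi)..Real.pi,
      g θ * Complex.exp (-((n : ℂ) * θ * Complex.I)) := by
  rw [fourierCoeffOn_eq_integral]
  have h1 : Real.pi - -Real.pi = 2 * Real.pi := by ring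
  congr 1
  · rw [h1]
  · refine intervalIntegral.integral_congr fun θ _ => ?_
    simp only [smul_eq_mul]
    rw [fourier_coe_apply, mul_comm]
    congr 2
    have hp : (Real.pi : ℂ) ≠ 0 := by exact_mod_cast Real.pi_ne_zero
    push_cast
    field_simp
    ring

/-- iterated shift -/
theorem shift_iter {k : ℕ} {s : ℤ} {g : ℝ → ℂ} (h : QPc k s g) (j : ℕ) (θ : ℝ) :
    g (θ + j * (2 * Real.pi / k)) =
      Complex.exp (((2 * Real.pi * (s : ℝ) / (k : ℝ) : ℝ) : ℂ) * Complex.I) ^ j * g θ := by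
  induction j with
  | zero => simp
  | succ j ih =>
    have h1 : θ + ((j + 1 : ℕ) : ℝ) * (2 * Real.pi / k) =
        (θ + j * (2 * Real.pi / k)) + 2 * Real.pi / k := by push_cast; ring
    rw [h1, h, ih, pow_succ]
    ring

theorem periodic {k : ℕ} (hk : 0 < k) {s : ℤ} {g : ℝ → ℂ} (h : QPc k s g) :
    Function.Periodic g (2 * Real.pi) := by
  intro θ
  have h1 := shift_iter h k θ
  have hk' : (k : ℝ) ≠ 0 := by positivity
  have h2 : θ + k * (2 * Real.pi / k) = θ + 2 * Real.pi := by field_simp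
  rw [h2] at h1
  rw [h1, ← Complex.exp_nat_mul]
  have h3 : (k : ℂ) * (((2 * Real.pi * (s : ℝ) / (k : ℝ) : ℝ) : ℂ) * Complex.I) =
      s * (2 * Real.pi * Complex.I) := by
    have : (k : ℂ) ≠ 0 := by exact_mod_cast hk.ne'
    push_cast
    field_simp
  rw [h3, Complex.exp_int_mul_two_pi_mul_I, one_mul]

/-- the other frequencies do not occur -/
theorem coeff_zero {k : ℕ} (hk : 0 < k) {s : ℤ} {g : ℝ → ℂ} (h : QPc k s g) (n : ℤ)
    (hn : ¬ (k : ℤ) ∣ n - s) : fourierCoeffOn hab g n = 0 := by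
  rw [coeff_eq]
  set F : ℝ → ℂ := fun θ => g θ * Complex.exp (-((n : ℂ) * θ * Complex.I)) with hF
  have hk' : (k : ℂ) ≠ 0 := by exact_mod_cast hk.ne'
  have hper : Function.Periodic F (2 * Real.pi) := by
    intro θ
    simp only [hF]
    rw [periodic hk h θ]
    congr 1
    have h3 : -((n : ℂ) * ((θ + 2 * Real.pi : ℝ) : ℂ) * Complex.I) =
        -((n : ℂ) * θ * Complex.I) + ((-n : ℤ) : ℂ) * (2 * Real.pi * Complex.I) := by
      push_cast
      ring
    rw [h3, Complex.exp_add, Complex.exp_int_mul_two_pi_mul_I, mul_one]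
  have hsh : ∀ θ, F (θ + 2 * Real.pi / k) =
      Complex.exp (2 * Real.pi * Complex.I * (((s - n : ℤ) : ℂ) / k)) * F θ := by
    intro θ
    simp only [hF]
    rw [h θ]
    have h3 : -((n : ℂ) * ((θ + 2 * Real.pi / k : ℝ) : ℂ) * Complex.I) =
        -((n : ℂ) * θ * Complex.I) + -((n : ℂ) * (2 * Real.pi / k) * Complex.I) := by
      push_cast
      ring
    rw [h3, Complex.exp_add]
    have h4 : Complex.exp (2 * Real.pi * Complex.I * (((s - n : ℤ) : ℂ) / k)) =
        Complex.exp (((2 * Real.pi * (s : ℝ) / (k : ℝ) : ℝ) : ℂ) * Complex.I) *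
          Complex.exp (-((n : ℂ) * (2 * Real.pi / k) * Complex.I)) := by
      rw [← Complex.exp_add]
      congr 1
      push_cast
      ring
    rw [h4]
    ring
  have h5 : ∫ θ in (-Real.pi)..Real.pi, F (θ + 2 * Real.pi / k) =
      ∫ θ in (-Real.pi)..Real.pi, F θ := by
    rw [intervalIntegral.integral_comp_add_right]
    have h6 : Real.pi + 2 * Real.pi / k = (-Real.pi + 2 * Real.pi / k) + 2 * Real.pi := by ring
    rw [h6, hper.intervalIntegral_add_eq (-Real.pi + 2 * Real.pi / k) (-Real.pi)]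
    congr 1
    ring
  simp only [hsh] at h5
  rw [intervalIntegral.integral_const_mul] at h5
  have h7 : Complex.exp (2 * Real.pi * Complex.I * (((s - n : ℤ) : ℂ) / k)) ≠ 1 := by
    intro h8
    rw [Complex.exp_eq_one_iff] at h8
    obtain ⟨m, hm⟩ := h8
    have h9 : (((s - n : ℤ) : ℂ) / k) = m := by
      have hI : (2 * Real.pi * Complex.I : ℂ) ≠ 0 := Complex.two_pi_I_ne_zero
      have : (2 * Real.pi * Complex.I : ℂ) * (((s - n : ℤ) : ℂ) / k) =
          (2 * Real.pi * Complex.I : ℂ) * m := by rw [hm]; ring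
      exact mul_left_cancel₀ hI this
    rw [div_eq_iff hk'] at h9
    have h10 : (s - n : ℤ) = m * k := by exact_mod_cast h9
    exact hn ⟨-m, by linarith⟩
  have h11 : (∫ θ in (-Real.pi)..Real.pi, F θ) = 0 := by
    by_contra h12
    exact h7 (mul_right_cancel₀ h12 (by rw [h5, one_mul]))
  rw [h11, smul_zero]

/-- coefficients of the derivative -/
theorem coeff_deriv {g g' : ℝ → ℂ} (h : C1 g g') (hp : g Real.pi = g (-Real.pi)) (n : ℤ) :
    fourierCoeffOn hab g' n = Complex.I * n * fourierCoeffOn hab g n := by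
  have hint : IntervalIntegrable g' volume (-Real.pi) Real.pi := h.2.intervalIntegrable _ _
  rcases eq_or_ne n 0 with rfl | hn
  · rw [coeff_eq g']
    have h1 : ∫ θ in (-Real.pi)..Real.pi, g' θ = g Real.pi - g (-Real.pi) :=
      intervalIntegral.integral_eq_sub_of_hasDerivAt (fun x _ => h.1 x) hint
    simp only [Int.cast_zero, zero_mul, neg_zero, Complex.exp_zero, mul_one, mul_zero, h1, hp,
      sub_self, smul_zero]
  · have h1 := fourierCoeffOn_of_hasDerivAt hab hn (fun x _ => h.1 x) hint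
    rw [hp, sub_self, mul_zero, zero_sub] at h1
    rw [h1]
    have hpi : (Real.pi : ℂ) ≠ 0 := by exact_mod_cast Real.pi_ne_zero
    have hn' : (n : ℂ) ≠ 0 := by exact_mod_cast hn
    push_cast
    field_simp
    ring

theorem memLp_of_continuous {g : ℝ → ℂ} (hg : Continuous g) :
    MemLp g 2 (volume.restrict (Ioc (-Real.pi) Real.pi)) := by
  obtain ⟨M, hM⟩ := (isCompact_Icc (a := -Real.pi) (b := Real.pi)).exists_bound_of_continuousOn
    hg.continuousOn
  refine MemLp.of_bound hg.aestronglyMeasurable M ?_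
  filter_upwards [ae_restrict_mem measurableSet_Ioc] with x hx
  exact hM x (Ioc_subset_Icc_self hx)

theorem pf_FOU : T_FOU := by
  intro k s n₀ L g g' hk h hq hn₀ hL
  have hgc : Continuous g := continuous_iff_continuousAt.2 fun x => (h.1 x).continuousAt
  have hper := periodic hk hq
  have hp : g Real.pi = g (-Real.pi) := by
    have := hper (-Real.pi)
    rw [← this]
    congr 1
    ring
  have P1 := hasSum_sq_fourierCoeffOn hab (memLp_of_continuous hgc)
  have P2 := hasSum_sq_fourierCoeffOn hab (memLp_of_continuous h.2)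
  set c : ℤ → ℂ := fun n => fourierCoeffOn hab g n with hc
  have P3 : HasSum (fun n : ℤ => if n = n₀ then (L - (n₀ : ℝ) ^ 2) * ‖c n₀‖ ^ 2 else 0)
      ((L - (n₀ : ℝ) ^ 2) * ‖c n₀‖ ^ 2) := by
    have := hasSum_ite_eq n₀ ((L - (n₀ : ℝ) ^ 2) * ‖c n₀‖ ^ 2)
    exact this
  have P4 := (P1.mul_left L).sub P3
  have key : ∀ n : ℤ, L * ‖c n‖ ^ 2 -
      (if n = n₀ then (L - (n₀ : ℝ) ^ 2) * ‖c n₀‖ ^ 2 else 0) ≤ ‖fourierCoeffOn hab g' n‖ ^ 2 := by
    intro n
    have hd : ‖fourierCoeffOn hab g' n‖ ^ 2 = (n : ℝ) ^ 2 * ‖c n‖ ^ 2 := by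
      rw [coeff_deriv h hp n]
      simp only [norm_mul, Complex.norm_I, one_mul, Complex.norm_intCast, hc]
      rw [mul_pow, sq_abs]
    rw [hd]
    split_ifs with h1
    · subst h1
      linarith
    · rw [sub_zero]
      by_cases h2 : (k : ℤ) ∣ n - s
      · exact mul_le_mul_of_nonneg_right (hL n h2 h1) (sq_nonneg _)
      · have : c n = 0 := coeff_zero hk hq n h2
        rw [this]
        simp
  have main := hasSum_le key P4 P2
  have h1 : Real.pi - -Real.pi = 2 * Real.pi := by ring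
  rw [h1] at main
  simp only [smul_eq_mul] at main
  have hcn : ‖c n₀‖ ^ 2 = (1 / (2 * Real.pi)) ^ 2 *
      ‖∫ θ in (-Real.pi)..Real.pi, g θ * Complex.exp (-((n₀ : ℂ) * θ * Complex.I))‖ ^ 2 := by
    simp only [hc]
    rw [coeff_eq, norm_smul, mul_pow]
    congr 1
    rw [Real.norm_eq_abs, sq_abs]
  rw [hcn] at main
  have hpi := Real.pi_pos
  have h2 := mul_le_mul_of_nonneg_left main (by positivity : (0 : ℝ) ≤ 2 * Real.pi)
  have e1 : ∀ A B C : ℝ, 2 * Real.pi * (L * ((2 * Real.pi)⁻¹ * A) -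
      C * ((1 / (2 * Real.pi)) ^ 2 * B)) = L * A - C / (2 * Real.pi) * B := by
    intro A B C
    field_simp
  have e2 : ∀ A : ℝ, 2 * Real.pi * ((2 * Real.pi)⁻¹ * A) = A := by
    intro A
    field_simp
  rw [e1, e2] at h2
  exact h2

end Pool.Agent.H12.RK
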